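import Pool.Agent.Helper87.AxS.Main2

/-!
Primitive axial algebras of Jordan type 1/2 generated by axes that are connected by pairs with
Gram value different from 0 and 1/4 are Jordan algebras.
-/

theorem Pool.Agent.Helper87.Parked.GenericJordan.result
    {F : Type*} [Field F] (h2 : (2 : F) ≠ 0)
    {A : Type*} [NonUnitalNonAssocCommRing A] [Module F A]
    [IsScalarTower F A A] [SMulCommClass F A A]
    {ι : Type*} (a : ι → A) (ha : ∀ i, AxJ.IsHalfAxis F (a i)) (ha0 : ∀ i, a i ≠ 0)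
    (hgen : NonUnitalAlgebra.adjoin F (Set.range a) = ⊤)
    (Γ : SimpleGraph ι) (hΓ : Γ.Preconnected)
    (hφ : ∀ i j, Γ.Adj i j → ∃ c : F, AxJ.IsGram F (a i) (a j) c ∧ c ≠ 0 ∧ c ≠ 1 / 4)
    (x y : A) : x * (y * (x * x)) = (x * y) * (x * x) := by
  have h4 : (4 : F) ≠ 0 := by
    have : (4 : F) = 2 * 2 := by norm_num
    rw [this]
    exact mul_ne_zero h2 h2
  refine AxJ.jordan_all2 h2 ha ha0 hgen Γ hΓ ?_ x y
  intro i j hij
  obtain ⟨c, hc, c0, c4⟩ := hφ i j hij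
  refine ⟨c, hc, c0, fun h => c4 ?_⟩
  rw [eq_div_iff h4, mul_comm]
  exact h
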